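import Pool.Agent.V11121.Conn

/-!
# Faithful universal graphs for `K_t`-minor-free graphs are larger than `2 ^ (c n)`

For `k = t - 2` and a sequence `s` of `m` elements of `Fin k` there is a graph with `m + k + 2` vertices,
a clique `y, z_1, ..., z_k` followed by vertices `x_0, ..., x_m`, where `x_i` is joined to a `k`-clique
`σ_i` and `σ_(i+1)` arises from `σ_i` by replacing the element number `s_i` by `x_i`. In a `K_t`-minor-free
graph the images of `y` and `x_m` determine the image of the set of the `z_j`, and together with the images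
of the `z_j` they determine `s`.
-/

set_option autoImplicit false

namespace Pool.Agent.Results.MP_f53640_co.NoUniformExponent

open SimpleGraph Finset Pool.Agent.V11121

/-- `G` has `K_t` as a minor. -/
def HasK (t : ℕ) {V : Type} (G : SimpleGraph V) : Prop :=
  ∃ B : Fin t → Set V, (∀ i, (G.induce (B i)).Connected) ∧
    (∀ i j, i ≠ j → Disjoint (B i) (B j)) ∧ ∀ i j, i ≠ j → ∃ a ∈ B i, ∃ b ∈ B j, G.Adj a b

/-- `U` contains every `K_t`-minor-free graph with `n` vertices as a subgraph. -/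
def Universal (t n : ℕ) {W : Type} (U : SimpleGraph W) : Prop :=
  ∀ (V : Type) (_ : Fintype V) (G : SimpleGraph V), Fintype.card V = n → ¬ HasK t G →
    ∃ f : V → W, Function.Injective f ∧ ∀ a b, G.Adj a b → U.Adj (f a) (f b)

section models

variable {W : Type} {U : SimpleGraph W}

theorem hasK_of_fintype {ι : Type} [Fintype ι] {t : ℕ} (h : Fintype.card ι = t) (B : ι → Set W)
    (h1 : ∀ i, (U.induce (B i)).Connected) (h2 : ∀ i j, i ≠ j → Disjoint (B i) (B j))
    (h3 : ∀ i j, i ≠ j → ∃ a ∈ B i, ∃ b ∈ B j, U.Adj a b) : HasK t U := by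
  have e := (Fintype.equivFinOfCardEq h).symm
  exact ⟨fun i => B (e i), fun i => h1 _, fun i j hij => h2 _ _ (fun he => hij (e.injective he)),
    fun i j hij => h3 _ _ (fun he => hij (e.injective he))⟩

theorem conn_singleton (x : W) : (U.induce ({x} : Set W)).Connected := by
  have hs : Subsingleton (({x} : Set W) : Type) := by
    constructor
    rintro ⟨a, ha⟩ ⟨b, hb⟩
    exact Subtype.ext (ha.trans hb.symm)
  have : Nonempty (({x} : Set W) : Type) := ⟨⟨x, rfl⟩⟩
  exact ⟨fun a b => by rw [Subsingleton.elim a b]⟩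

/-- a `k`-clique, a further vertex complete to it, and a connected set adjacent to all of them. -/
theorem hasK_clique {k : ℕ} (ρ : Fin k → W) (x : W) (C : Set W)
    (hρ : ∀ i j, i ≠ j → U.Adj (ρ i) (ρ j)) (hx : ∀ i, U.Adj x (ρ i))
    (hC : (U.induce C).Connected) (hρC : ∀ i, ρ i ∉ C) (hxC : x ∉ C)
    (h1 : ∀ i, ∃ c ∈ C, U.Adj c (ρ i)) (h2 : ∃ c ∈ C, U.Adj c x) : HasK (k + 2) U := by
  let B : Option (Option (Fin k)) → Set W := fun o => match o with
    | none => C
    | some none => {x}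
    | some (some i) => {ρ i}
  refine hasK_of_fintype (ι := Option (Option (Fin k))) (by simp) B ?_ ?_ ?_
  · rintro (_ | _ | i)
    · exact hC
    · exact conn_singleton x
    · exact conn_singleton (ρ i)
  · rintro (_ | _ | i) (_ | _ | j) hij
    · exact absurd rfl hij
    · exact Set.disjoint_singleton_right.2 hxC
    · exact Set.disjoint_singleton_right.2 (hρC j)
    · exact Set.disjoint_singleton_left.2 hxC
    · exact absurd rfl hij
    · exact Set.disjoint_singleton.2 (hx j).ne
    · exact Set.disjoint_singleton_left.2 (hρC i)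
    · exact Set.disjoint_singleton.2 (hx i).ne.symm
    · refine Set.disjoint_singleton.2 (hρ i j ?_).ne
      rintro rfl
      exact hij rfl
  · rintro (_ | _ | i) (_ | _ | j) hij
    · exact absurd rfl hij
    · obtain ⟨c, hc, hcx⟩ := h2
      exact ⟨c, hc, x, rfl, hcx⟩
    · obtain ⟨c, hc, hcx⟩ := h1 j
      exact ⟨c, hc, ρ j, rfl, hcx⟩
    · obtain ⟨c, hc, hcx⟩ := h2
      exact ⟨x, rfl, c, hc, hcx.symm⟩
    · exact absurd rfl hij
    · exact ⟨x, rfl, ρ j, rfl, hx j⟩
    · obtain ⟨c, hc, hcx⟩ := h1 i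
      exact ⟨ρ i, rfl, c, hc, hcx.symm⟩
    · exact ⟨ρ i, rfl, x, rfl, (hx i).symm⟩
    · refine ⟨ρ i, rfl, ρ j, rfl, hρ i j ?_⟩
      rintro rfl
      exact hij rfl

/-- two vertices of a connected set complete to a `k`-clique. -/
theorem hasK_two [Finite W] {k : ℕ} (ρ : Fin k → W) {x x' : W} (C : Set W)
    (hρ : ∀ i j, i ≠ j → U.Adj (ρ i) (ρ j)) (hx : ∀ i, U.Adj x (ρ i)) (hx' : ∀ i, U.Adj x' (ρ i))
    (hne : x ≠ x') (hC : (U.induce C).Connected) (hρC : ∀ i, ρ i ∉ C) (hxC : x ∈ C)
    (hxC' : x' ∈ C) : HasK (k + 2) U := by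
  classical
  -- a maximal connected subset of `C` avoiding `x` and containing `x'`
  obtain ⟨D, ⟨hD1, hD2, hD3, hD4⟩, hmax⟩ := Set.exists_max_image
    {D : Set W | (U.induce D).Connected ∧ x' ∈ D ∧ D ⊆ C ∧ x ∉ D} (fun D => D.ncard)
    (Set.toFinite _) ⟨{x'}, conn_singleton x', rfl, by simpa using hxC', by simpa using hne⟩
  obtain ⟨p, q, hp, hpD, hq, hqD, hpq⟩ := crossing (A := D) hC hxC' hD2 hxC hD4
  have hqx : q = x := by
    by_contra hqx
    have h1 := hmax (insert q D) ⟨conn_insert hD1 hpD hpq, Or.inr hD2,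
      Set.insert_subset hq hD3, by
        rintro (h | h)
        · exact hqx h.symm
        · exact hD4 h⟩
    rw [Set.ncard_insert_of_notMem hqD (Set.toFinite _)] at h1
    omega
  subst hqx
  exact hasK_clique ρ q D hρ hx hD1 (fun i h => hρC i (hD3 h)) hD4 (fun i => ⟨x', hD2, hx' i⟩)
    ⟨p, hpD, hpq⟩

theorem path_conn (X : ℕ → W) (a m : ℕ) (h : a ≤ m)
    (hadj : ∀ l, a ≤ l → l < m → U.Adj (X l) (X (l + 1))) :
    (U.induce {w | ∃ l, a ≤ l ∧ l ≤ m ∧ X l = w}).Connected := by
  induction m, h using Nat.le_induction with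
  | base =>
    have : {w | ∃ l, a ≤ l ∧ l ≤ a ∧ X l = w} = {X a} := by
      ext w
      simp only [Set.mem_ofPred_eq, Set.mem_singleton_iff]
      constructor
      · rintro ⟨l, h1, h2, rfl⟩
        rw [le_antisymm h2 h1]
      · rintro rfl
        exact ⟨a, le_rfl, le_rfl, rfl⟩
    rw [this]
    exact conn_singleton _
  | succ m h ih =>
    have h1 := ih (fun l h1 h2 => hadj l h1 (by omega))
    have h2 := conn_insert h1 (a := X m) (b := X (m + 1)) ⟨m, h, le_rfl, rfl⟩
      (hadj m h (by omega))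
    have : {w | ∃ l, a ≤ l ∧ l ≤ m + 1 ∧ X l = w} =
        insert (X (m + 1)) {w | ∃ l, a ≤ l ∧ l ≤ m ∧ X l = w} := by
      ext w
      simp only [Set.mem_ofPred_eq, Set.mem_insert_iff]
      constructor
      · rintro ⟨l, h1, h2, rfl⟩
        by_cases hl : l = m + 1
        · left; rw [hl]
        · right; exact ⟨l, h1, by omega, rfl⟩
      · rintro (rfl | ⟨l, h1, h2, rfl⟩)
        · exact ⟨m + 1, by omega, le_rfl, rfl⟩
        · exact ⟨l, h1, by omega, rfl⟩
    rw [this]
    exact h2

end models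

section elim

/-- deleting a vertex whose neighbours in a connected set form a clique. -/
theorem conn_delete {V : Type} {G : SimpleGraph V} {D : Set V} {v a0 : V}
    (hD : (G.induce D).Connected) (ha0 : a0 ∈ D) (hva0 : G.Adj v a0)
    (hcl : ∀ b ∈ D, G.Adj b v → b ≠ a0 → G.Adj a0 b) : (G.induce (D \ {v})).Connected := by
  classical
  have ha0' : a0 ∈ D \ {v} := ⟨ha0, fun h => hva0.ne h.symm⟩
  -- the retraction
  have hret : ∀ x ∈ D, (if x = v then a0 else x) ∈ D \ {v} := by
    intro x hx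
    split_ifs with h
    · exact ha0'
    · exact ⟨hx, h⟩
  have key : ∀ (x y : D) (w : (G.induce D).Walk x y),
      (G.induce (D \ {v})).Reachable ⟨_, hret x.1 x.2⟩ ⟨_, hret y.1 y.2⟩ := by
    intro x y w
    induction w with
    | nil => exact Reachable.refl _
    | @cons p q _ hpq _ ih =>
      refine Reachable.trans ?_ ih
      have hadj : G.Adj p.1 q.1 := hpq
      by_cases hp : p.1 = v
      · by_cases hq : q.1 = v
        · rw [hp, hq] at hadj
          exact absurd rfl hadj.ne
        · by_cases hqa : q.1 = a0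
          · have : (⟨_, hret p.1 p.2⟩ : (D \ {v} : Set V)) = ⟨_, hret q.1 q.2⟩ := by
              apply Subtype.ext
              simp only [hp, hq, if_true, if_false]
              exact hqa.symm
            rw [this]
          · apply Adj.reachable
            show G.Adj (if p.1 = v then a0 else p.1) (if q.1 = v then a0 else q.1)
            rw [if_pos hp, if_neg hq]
            rw [hp] at hadj
            exact hcl q.1 q.2 hadj.symm hqa
      · by_cases hq : q.1 = v
        · by_cases hpa : p.1 = a0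
          · have : (⟨_, hret p.1 p.2⟩ : (D \ {v} : Set V)) = ⟨_, hret q.1 q.2⟩ := by
              apply Subtype.ext
              simp only [hp, hq, if_true, if_false]
              exact hpa
            rw [this]
          · apply Adj.reachable
            show G.Adj (if p.1 = v then a0 else p.1) (if q.1 = v then a0 else q.1)
            rw [if_neg hp, if_pos hq]
            rw [hq] at hadj
            exact (hcl p.1 p.2 hadj hpa).symm
        · apply Adj.reachable
          show G.Adj (if p.1 = v then a0 else p.1) (if q.1 = v then a0 else q.1)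
          rw [if_neg hp, if_neg hq]
          exact hadj
  have : Nonempty ((D \ {v} : Set V) : Type) := ⟨⟨a0, ha0'⟩⟩
  refine ⟨?_⟩
  rintro ⟨x, hx⟩ ⟨y, hy⟩
  obtain ⟨w⟩ := hD.preconnected ⟨x, hx.1⟩ ⟨y, hy.1⟩
  have h1 := key _ _ w
  have e1 : (⟨_, hret x hx.1⟩ : (D \ {v} : Set V)) = ⟨x, hx⟩ := by
    apply Subtype.ext
    exact if_neg hx.2
  have e2 : (⟨_, hret y hy.1⟩ : (D \ {v} : Set V)) = ⟨y, hy⟩ := by
    apply Subtype.ext
    exact if_neg hy.2
  simp only at h1
  rw [e1, e2] at h1
  exact h1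

/-- a graph with an elimination order with cliques of at most `k` vertices has no minor
`K_(k+2)`. -/
theorem no_minor_of_elim {V : Type} [Fintype V] (G : SimpleGraph V) (r : V → ℕ)
    (hr : Function.Injective r) (k : ℕ)
    (h1 : ∀ v a b, G.Adj a v → G.Adj b v → r a < r v → r b < r v → a ≠ b → G.Adj a b)
    (h2 : ∀ v, {a | G.Adj a v ∧ r a < r v}.ncard ≤ k) : ¬ HasK (k + 2) G := by
  classical
  intro hK
  have hex : ∃ N, ∃ B : Fin (k + 2) → Set V, ((∀ i, (G.induce (B i)).Connected) ∧
    (∀ i j, i ≠ j → Disjoint (B i) (B j)) ∧ ∀ i j, i ≠ j → ∃ a ∈ B i, ∃ b ∈ B j, G.Adj a b) ∧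
    ∑ i, (B i).ncard = N := by
    obtain ⟨B, hB⟩ := hK
    exact ⟨_, B, hB, rfl⟩
  obtain ⟨B, ⟨hB1, hB2, hB3⟩, hBN⟩ := Nat.find_spec hex
  have hmin := fun N => Nat.find_min hex (m := N)
  rw [← hBN] at hmin
  -- the highest vertex
  have hne : (univ.filter (fun v : V => ∃ i, v ∈ B i)).Nonempty := by
    obtain ⟨⟨v, hv⟩⟩ := (hB1 0).nonempty
    exact ⟨v, mem_filter.2 ⟨mem_univ _, 0, hv⟩⟩
  obtain ⟨v, hv, hvmax⟩ := exists_max_image _ r hne
  rw [mem_filter] at hv
  obtain ⟨_, i0, hi0⟩ := hv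
  have hlow : ∀ j, ∀ u ∈ B j, u ≠ v → r u < r v := by
    intro j u hu huv
    have h3 := hvmax u (mem_filter.2 ⟨mem_univ _, j, hu⟩)
    exact lt_of_le_of_ne h3 (fun h => huv (hr h))
  by_cases hsing : ∃ u ∈ B i0, u ≠ v
  · -- remove `v`
    obtain ⟨u, hu, huv⟩ := hsing
    obtain ⟨p, a0, hp, hpv, ha0, ha0v, hpa0⟩ := crossing (A := {v}) (hB1 i0) hi0 rfl hu huv
    rw [Set.mem_singleton_iff] at hpv ha0v
    subst hpv
    have hra0 := hlow i0 a0 ha0 ha0v
    have hclq : ∀ j, ∀ b ∈ B j, G.Adj b p → b ≠ a0 → G.Adj a0 b := by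
      intro j b hb hbp hba
      exact h1 p a0 b hpa0.symm hbp hra0 (hlow j b hb hbp.ne) hba.symm
    have hconn := conn_delete (hB1 i0) ha0 hpa0 (hclq i0)
    let B' : Fin (k + 2) → Set V := Function.update B i0 (B i0 \ {p})
    have hB'0 : B' i0 = B i0 \ {p} := Function.update_self _ _ _
    have hB'j : ∀ j, j ≠ i0 → B' j = B j := fun j hj => Function.update_of_ne hj _ _
    have hsub : ∀ j, B' j ⊆ B j := by
      intro j
      by_cases hj : j = i0
      · rw [hj, hB'0]
        exact Set.sdiff_subset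
      · rw [hB'j j hj]
    have hadj' : ∀ j, j ≠ i0 → ∃ a ∈ B' i0, ∃ b ∈ B' j, G.Adj a b := by
      intro j hj
      obtain ⟨a, ha, b, hb, hab⟩ := hB3 i0 j hj.symm
      rw [hB'0, hB'j j hj]
      by_cases hap : a = p
      · refine ⟨a0, ⟨ha0, ha0v⟩, b, hb, ?_⟩
        apply hclq j b hb
        · rw [hap] at hab
          exact hab.symm
        · rintro rfl
          exact Set.disjoint_left.1 (hB2 j i0 hj) hb ha0
      · exact ⟨a, ⟨ha, hap⟩, b, hb, hab⟩
    have hlt : ∑ i, (B' i).ncard < ∑ i, (B i).ncard := by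
      apply sum_lt_sum
      · intro j _
        exact Set.ncard_le_ncard (hsub j) (Set.toFinite _)
      · refine ⟨i0, mem_univ _, ?_⟩
        rw [hB'0]
        apply Set.ncard_lt_ncard _ (Set.toFinite _)
        refine ⟨Set.sdiff_subset, ?_⟩
        intro hcon
        exact (hcon hi0).2 rfl
    apply hmin _ hlt
    refine ⟨B', ⟨?_, ?_, ?_⟩, rfl⟩
    · intro j
      by_cases hj : j = i0
      · rw [hj, hB'0]
        exact hconn
      · rw [hB'j j hj]
        exact hB1 j
    · intro i j hij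
      exact (hB2 i j hij).mono (hsub i) (hsub j)
    · intro i j hij
      by_cases hi : i = i0
      · subst hi
        exact hadj' j hij.symm
      · by_cases hj : j = i0
        · subst hj
          obtain ⟨a, ha, b, hb, hab⟩ := hadj' i hi
          exact ⟨b, hb, a, ha, hab.symm⟩
        · rw [hB'j i hi, hB'j j hj]
          exact hB3 i j hij
  · -- the branch set is `{v}`
    push Not at hsing
    have hnb : ∀ j, j ≠ i0 → ∃ b ∈ B j, G.Adj b v := by
      intro j hj
      obtain ⟨a, ha, b, hb, hab⟩ := hB3 i0 j hj.symm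
      rw [hsing a ha] at hab
      exact ⟨b, hb, hab.symm⟩
    have : Nonempty V := ⟨v⟩
    choose! b hb1 hb2 using hnb
    have hcard : (univ.erase i0).card ≤ {a | G.Adj a v ∧ r a < r v}.ncard := by
      rw [← Set.ncard_coe_finset]
      apply Set.ncard_le_ncard_of_injOn b _ _ (Set.toFinite _)
      · intro j hj
        rw [mem_coe, mem_erase] at hj
        exact ⟨hb2 j hj.1, hlow j _ (hb1 j hj.1) (hb2 j hj.1).ne⟩
      · intro j hj j' hj' hjj
        rw [mem_coe, mem_erase] at hj hj'
        by_contra hne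
        exact Set.disjoint_left.1 (hB2 j j' hne) (hb1 j hj.1) (hjj ▸ hb1 j' hj'.1)
    rw [card_erase_of_mem (mem_univ _), card_univ, Fintype.card_fin] at hcard
    have := h2 v
    omega

end elim

section kpath

/-- the states: `σ_0 = Z` and `σ_(i+1)` is `σ_i` with entry `s i` replaced by `X i`. -/
def st {k : ℕ} {W : Type} (s : ℕ → Fin k) (Z : Fin k → W) (X : ℕ → W) : ℕ → Fin k → W
  | 0 => Z
  | i + 1 => Function.update (st s Z X i) (s i) (X i)

/-- the structure of the image of the graph of `s`. -/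
structure KPath {k : ℕ} {W : Type} (U : SimpleGraph W) (m : ℕ) (s : ℕ → Fin k) (Y : W)
    (Z : Fin k → W) (X : ℕ → W) : Prop where
  adjX : ∀ i ≤ m, ∀ j, U.Adj (X i) (st s Z X i j)
  adjY : ∀ j, U.Adj Y (Z j)
  clq : ∀ j j', j ≠ j' → U.Adj (Z j) (Z j')
  injX : ∀ i i', i ≤ m → i' ≤ m → X i = X i' → i = i'
  XY : ∀ i ≤ m, X i ≠ Y
  XZ : ∀ i ≤ m, ∀ j, X i ≠ Z j

variable {k m : ℕ} {W : Type} {U : SimpleGraph W} {s s' : ℕ → Fin k} {Y : W} {Z Z' : Fin k → W}
  {X X' : ℕ → W}

theorem st_mem (s : ℕ → Fin k) (Z : Fin k → W) (X : ℕ → W) (i : ℕ) (j : Fin k) :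
    (∃ j', st s Z X i j = Z j') ∨ ∃ l < i, st s Z X i j = X l := by
  induction i with
  | zero => exact Or.inl ⟨j, rfl⟩
  | succ i ih =>
    by_cases hj : j = s i
    · right
      refine ⟨i, by omega, ?_⟩
      rw [st, hj, Function.update_self]
    · rw [st, Function.update_of_ne hj]
      rcases ih with h | ⟨l, hl, h⟩
      · exact Or.inl h
      · exact Or.inr ⟨l, by omega, h⟩

theorem st_clique (h : KPath U m s Y Z X) (i : ℕ) (hi : i ≤ m + 1) :
    ∀ j j', j ≠ j' → U.Adj (st s Z X i j) (st s Z X i j') := by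
  induction i with
  | zero => exact h.clq
  | succ i ih =>
    have ih' := ih (by omega)
    intro j j' hjj
    by_cases hj : j = s i
    · have hj' : j' ≠ s i := fun h' => hjj (hj.trans h'.symm)
      rw [st, hj, Function.update_self, Function.update_of_ne hj']
      exact h.adjX i (by omega) j'
    · by_cases hj' : j' = s i
      · rw [st, hj', Function.update_self, Function.update_of_ne hj]
        exact (h.adjX i (by omega) j).symm
      · rw [st, Function.update_of_ne hj, Function.update_of_ne hj']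
        exact ih' j j' hjj

theorem adj_succ (h : KPath U m s Y Z X) {l : ℕ} (hl : l < m) : U.Adj (X l) (X (l + 1)) := by
  have h1 := h.adjX (l + 1) (by omega) (s l)
  rw [st, Function.update_self] at h1
  exact h1.symm

theorem not_mem_st (h : KPath U m s Y Z X) {i l : ℕ} (hil : i ≤ l) (hl : l ≤ m) (j : Fin k) :
    X l ≠ st s Z X i j := by
  rcases st_mem s Z X i j with ⟨j', h1⟩ | ⟨l', hl', h1⟩
  · rw [h1]
    exact h.XZ l hl j'
  · rw [h1]
    intro h2
    have := h.injX l l' hl (by omega) h2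
    omega

/-- the set of the vertices `X a, ..., X m`. -/
def seg (X : ℕ → W) (a m : ℕ) : Set W := {w | ∃ l, a ≤ l ∧ l ≤ m ∧ X l = w}

theorem seg_conn (h : KPath U m s Y Z X) {a : ℕ} (ha : a ≤ m) :
    (U.induce (seg X a m)).Connected :=
  path_conn X a m ha fun _ _ h2 => adj_succ h h2

theorem seg_union_conn (h : KPath U m s Y Z X) (h' : KPath U m s' Y Z' X') (hw : X m = X' m)
    {a : ℕ} (ha : a ≤ m) : (U.induce (seg X a m ∪ seg X' a m)).Connected :=
  induce_union_connected (seg_conn h ha).preconnected (seg_conn h' ha).preconnected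
    ⟨X m, ⟨m, ha, le_rfl, rfl⟩, ⟨m, ha, le_rfl, hw.symm⟩⟩

/-- the first and the last vertex and the starting clique determine the sequence. -/
theorem uniq [Finite W] (hU : ¬ HasK (k + 2) U) (h : KPath U m s Y Z X)
    (h' : KPath U m s' Y Z X') (hw : X m = X' m) :
    ∀ i ≤ m, st s Z X i = st s' Z X' i ∧ X i = X' i ∧ ∀ l < i, s l = s' l := by
  intro i
  induction i with
  | zero =>
    intro _
    refine ⟨rfl, ?_, fun l hl => absurd hl (by omega)⟩
    by_contra hne
    apply hU
    apply hasK_two (U := U) Z (x := X 0) (x' := X' 0) (seg X 0 m ∪ seg X' 0 m) h.clq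
      (h.adjX 0 (by omega)) (h'.adjX 0 (by omega)) hne (seg_union_conn h h' hw (by omega))
    · rintro j (⟨l, _, hl, h1⟩ | ⟨l, _, hl, h1⟩)
      · exact h.XZ l hl j h1
      · exact h'.XZ l hl j h1
    · exact Or.inl ⟨0, le_rfl, by omega, rfl⟩
    · exact Or.inr ⟨0, le_rfl, by omega, rfl⟩
  | succ i ih =>
    intro hi
    obtain ⟨e1, e2, e3⟩ := ih (by omega)
    have hconn := seg_union_conn h h' hw hi
    have hX1 : ∀ j, U.Adj (X (i + 1)) (st s Z X (i + 1) j) := h.adjX (i + 1) hi
    have hX1' : ∀ j, U.Adj (X' (i + 1)) (st s' Z X' (i + 1) j) := h'.adjX (i + 1) hi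
    have havoid : ∀ j, st s Z X i j ∉ seg X (i + 1) m ∪ seg X' (i + 1) m := by
      rintro j (⟨l, h1, h2, h3⟩ | ⟨l, h1, h2, h3⟩)
      · exact not_mem_st h (by omega) h2 j h3
      · rw [e1] at h3
        exact not_mem_st h' (by omega) h2 j h3
    have hXi : X i ∉ seg X (i + 1) m ∪ seg X' (i + 1) m := by
      rintro (⟨l, h1, h2, h3⟩ | ⟨l, h1, h2, h3⟩)
      · have := h.injX l i h2 (by omega) h3
        omega
      · rw [e2] at h3
        have := h'.injX l i h2 (by omega) h3
        omega
    have m1 : X (i + 1) ∈ seg X (i + 1) m ∪ seg X' (i + 1) m := Or.inl ⟨i + 1, le_rfl, hi, rfl⟩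
    have m1' : X' (i + 1) ∈ seg X (i + 1) m ∪ seg X' (i + 1) m := Or.inr ⟨i + 1, le_rfl, hi, rfl⟩
    -- the replaced positions agree
    have hs : s i = s' i := by
      by_contra hne
      apply hU
      apply hasK_clique (U := U) (st s Z X i) (X i) (seg X (i + 1) m ∪ seg X' (i + 1) m)
        (st_clique h i (by omega)) (h.adjX i (by omega)) hconn havoid hXi
      · intro j
        by_cases hj : j = s i
        · refine ⟨X' (i + 1), m1', ?_⟩
          have h1 := hX1' j
          rw [st, Function.update_of_ne (by rw [hj]; exact hne), ← e1] at h1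
          exact h1
        · refine ⟨X (i + 1), m1, ?_⟩
          have h1 := hX1 j
          rw [st, Function.update_of_ne hj] at h1
          exact h1
      · refine ⟨X (i + 1), m1, ?_⟩
        have h1 := hX1 (s i)
        rw [st, Function.update_self] at h1
        exact h1
    have est : st s Z X (i + 1) = st s' Z X' (i + 1) := by
      rw [st, st, e1, e2, hs]
    refine ⟨est, ?_, ?_⟩
    · by_contra hne
      apply hU
      apply hasK_two (U := U) (st s Z X (i + 1)) (x := X (i + 1)) (x' := X' (i + 1))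
        (seg X (i + 1) m ∪ seg X' (i + 1) m) (st_clique h (i + 1) (by omega)) hX1
        (by rw [est]; exact hX1') hne hconn _ m1 m1'
      intro j
      by_cases hj : j = s i
      · rw [st, hj, Function.update_self]
        exact hXi
      · rw [st, Function.update_of_ne hj]
        exact havoid j
    · intro l hl
      by_cases hli : l = i
      · rw [hli, hs]
      · exact e3 l (by omega)

/-- the first and the last vertex determine the set of the `Z j`. -/
theorem range_sub [Finite W] (hU : ¬ HasK (k + 2) U) (h : KPath U m s Y Z X)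
    (h' : KPath U m s' Y Z' X') (hw : X m = X' m) (j : Fin k) : ∃ j', Z' j' = Z j := by
  by_contra hcon
  push Not at hcon
  apply hU
  by_cases hmeet : ∃ l ≤ m, ∃ j', X l = Z' j'
  · -- a neighbour of `Y` beyond `Z`
    obtain ⟨l, hl, j', hlj⟩ := hmeet
    apply hasK_clique (U := U) Z Y (seg X 0 m) h.clq h.adjY (seg_conn h (by omega))
    · rintro i ⟨l', _, h1, h2⟩
      exact h.XZ l' h1 i h2
    · rintro ⟨l', _, h1, h2⟩
      exact h.XY l' h1 h2
    · intro i
      exact ⟨X 0, ⟨0, le_rfl, by omega, rfl⟩, h.adjX 0 (by omega) i⟩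
    · refine ⟨X l, ⟨l, by omega, hl, rfl⟩, ?_⟩
      rw [hlj]
      exact (h'.adjY j').symm
  · push Not at hmeet
    have hconn0 := seg_union_conn h h' hw (a := 0) (by omega)
    have hconn := conn_insert hconn0 (a := X 0) (b := Z j) (Or.inl ⟨0, le_rfl, by omega, rfl⟩)
      (h.adjX 0 (by omega) j)
    apply hasK_clique (U := U) Z' Y (insert (Z j) (seg X 0 m ∪ seg X' 0 m)) h'.clq h'.adjY hconn
    · rintro i (h1 | ⟨l', _, h1, h2⟩ | ⟨l', _, h1, h2⟩)
      · exact hcon i h1
      · exact hmeet l' h1 i h2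
      · exact h'.XZ l' h1 i h2
    · rintro (h1 | ⟨l', _, h1, h2⟩ | ⟨l', _, h1, h2⟩)
      · exact (h.adjY j).ne h1
      · exact h.XY l' h1 h2
      · exact h'.XY l' h1 h2
    · intro i
      exact ⟨X' 0, Or.inr (Or.inr ⟨0, le_rfl, by omega, rfl⟩), h'.adjX 0 (by omega) i⟩
    · exact ⟨Z j, Or.inl rfl, (h.adjY j).symm⟩

/-- counting. -/
theorem count [Fintype W] (hk : 1 ≤ k) (hU : ¬ HasK (k + 2) U)
    (hex : ∀ s : ℕ → Fin k, ∃ (Y : W) (Z : Fin k → W) (X : ℕ → W), KPath U m s Y Z X) :
    k ^ m ≤ Fintype.card W ^ 2 * k ^ k := by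
  classical
  let ext : (Fin m → Fin k) → ℕ → Fin k := fun s i => if h : i < m then s ⟨i, h⟩ else ⟨0, hk⟩
  choose Y Z X hX using fun s => hex (ext s)
  -- reference tuples
  have hRex : ∀ p : W × W, ∃ R : Fin k → W, ∀ s, (Y s, X s m) = p →
      ∀ j, ∃ j', R j' = Z s j := by
    intro p
    by_cases hp : ∃ s, (Y s, X s m) = p
    · obtain ⟨s0, hs0⟩ := hp
      refine ⟨Z s0, ?_⟩
      intro s hs j
      obtain ⟨e1, e2⟩ := Prod.mk.inj (hs.trans hs0.symm)
      have h1 := hX s
      rw [e1] at h1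
      exact range_sub hU h1 (hX s0) e2 j
    · refine ⟨fun _ => p.1, ?_⟩
      intro s hs
      exact absurd ⟨s, hs⟩ hp
  choose R hR using hRex
  choose g hg using fun s => hR (Y s, X s m) s rfl
  have h1 : (univ : Finset (Fin m → Fin k)).card ≤
      (univ : Finset ((W × W) × (Fin k → Fin k))).card := by
    apply card_le_card_of_injOn (fun s => ((Y s, X s m), g s)) (fun _ _ => mem_coe.2 (mem_univ _))
    intro s _ s' _ hss
    obtain ⟨e1, e2⟩ := Prod.mk.inj hss
    obtain ⟨e3, e4⟩ := Prod.mk.inj e1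
    have eZ : Z s = Z s' := by
      funext j
      rw [← hg s j, ← hg s' j, e1, e2]
    have h2 := hX s
    rw [e3, eZ] at h2
    have h3 := (uniq hU h2 (hX s') e4 m le_rfl).2.2
    funext i
    have h4 := h3 i.1 i.2
    have h5 : ∀ s : Fin m → Fin k, ext s i.1 = s i := fun s => by simp [ext]
    rwa [h5, h5] at h4
  rw [card_univ, card_univ, Fintype.card_fun, Fintype.card_fin, Fintype.card_fin,
    Fintype.card_prod, Fintype.card_prod, Fintype.card_fun, Fintype.card_fin] at h1
  refine h1.trans (le_of_eq ?_)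
  ring

end kpath

section graph

variable {k : ℕ}

/-- labels: `inl none` is `y`, `inl (some j)` is `z_j` and `inr i` is `x_i`. -/
abbrev Lab (k : ℕ) : Type := Option (Fin k) ⊕ ℕ

/-- the states as labels. -/
def sg (s : ℕ → Fin k) : ℕ → Fin k → Lab k :=
  st s (fun j => (Sum.inl (some j) : Lab k)) (fun i => (Sum.inr i : Lab k))

/-- the lower neighbour relation. -/
def Low (s : ℕ → Fin k) : Lab k → Lab k → Prop
  | u, Sum.inr i => ∃ j, sg s i j = u
  | Sum.inl _, Sum.inl _ => True
  | Sum.inr _, Sum.inl _ => False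

/-- the infinite graph of `s`. -/
def GInf (s : ℕ → Fin k) : SimpleGraph (Lab k) where
  Adj u v := u ≠ v ∧ (Low s u v ∨ Low s v u)
  symm := ⟨fun _ _ h => ⟨h.1.symm, h.2.symm⟩⟩
  loopless := ⟨fun _ h => h.1 rfl⟩

/-- the rank of a label. -/
def rk : Lab k → ℕ
  | Sum.inl none => 0
  | Sum.inl (some j) => j.val + 1
  | Sum.inr i => k + 1 + i

theorem rk_inl (a : Option (Fin k)) : rk (Sum.inl a : Lab k) ≤ k := by
  rcases a with _ | j
  · simp [rk]
  · have := j.2
    simp only [rk]
    omega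

theorem rk_inj : Function.Injective (rk (k := k)) := by
  rintro ((_ | j) | i) ((_ | j') | i') h
  · rfl
  · simp [rk] at h
  · simp only [rk] at h; omega
  · simp [rk] at h
  · simp only [rk] at h
    have : j = j' := Fin.ext (by omega)
    rw [this]
  · have := j.2
    simp only [rk] at h; omega
  · simp only [rk] at h; omega
  · have := j'.2
    simp only [rk] at h; omega
  · simp only [rk] at h
    have : i = i' := by omega
    rw [this]

theorem rk_sg (s : ℕ → Fin k) (i : ℕ) (j : Fin k) : rk (sg s i j) < k + 1 + i := by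
  rcases st_mem s (fun j => (Sum.inl (some j) : Lab k)) (fun i => (Sum.inr i : Lab k)) i j with
    ⟨j', h⟩ | ⟨l, hl, h⟩
  · rw [sg, h]
    have := j'.2
    simp only [rk]
    omega
  · rw [sg, h]
    simp only [rk]
    omega

theorem sg_clique (s : ℕ → Fin k) (i : ℕ) : ∀ j j', j ≠ j' →
    (GInf s).Adj (sg s i j) (sg s i j') := by
  induction i with
  | zero =>
    intro j j' hjj
    exact ⟨fun h => hjj (Option.some.inj (Sum.inl.inj h)), Or.inl trivial⟩
  | succ i ih =>
    have haux : ∀ j, (GInf s).Adj (Sum.inr i) (sg s i j) := by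
      intro j
      refine ⟨?_, Or.inr ⟨j, rfl⟩⟩
      intro h
      have h1 := rk_sg s i j
      rw [← h] at h1
      simp [rk] at h1
    have hstep : ∀ j, sg s (i + 1) j = Function.update (sg s i) (s i) (Sum.inr i) j := fun j => rfl
    intro j j' hjj
    by_cases hj : j = s i
    · have hj' : j' ≠ s i := fun h' => hjj (hj.trans h'.symm)
      rw [hstep, hstep, hj, Function.update_self, Function.update_of_ne hj']
      exact haux j'
    · by_cases hj' : j' = s i
      · rw [hstep, hstep, hj', Function.update_self, Function.update_of_ne hj]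
        exact (haux j).symm
      · rw [hstep, hstep, Function.update_of_ne hj, Function.update_of_ne hj']
        exact ih j j' hjj

/-- the embedding of the finite vertex set into the labels. -/
def emb {m : ℕ} : Option (Fin k) ⊕ Fin (m + 1) → Lab k
  | Sum.inl a => Sum.inl a
  | Sum.inr i => Sum.inr i.val

theorem emb_inj {m : ℕ} : Function.Injective (emb (k := k) (m := m)) := by
  rintro (a | i) (b | j) h
  · rw [Sum.inl.inj h]
  · exact absurd h (by simp [emb])
  · exact absurd h (by simp [emb])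
  · rw [Fin.ext (Sum.inr.inj h)]

/-- the finite graph of `s`. -/
def GFin (s : ℕ → Fin k) (m : ℕ) : SimpleGraph (Option (Fin k) ⊕ Fin (m + 1)) :=
  (GInf s).comap emb

/-- adjacency to a higher vertex. -/
theorem low_of_adj {s : ℕ → Fin k} {u : Lab k} {i : ℕ} (h : (GInf s).Adj u (Sum.inr i))
    (hr : rk u < rk (Sum.inr i : Lab k)) : ∃ j, sg s i j = u := by
  rcases h.2 with h1 | h1
  · exact h1
  · rcases u with a | i'
    · exact absurd h1 (by simp [Low])
    · obtain ⟨j, hj⟩ := h1
      have h2 := rk_sg s i' j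
      rw [hj] at h2
      simp only [rk] at h2 hr
      omega

theorem GFin_free (s : ℕ → Fin k) (m : ℕ) : ¬ HasK (k + 2) (GFin s m) := by
  classical
  apply no_minor_of_elim (GFin s m) (fun v => rk (emb v)) (rk_inj.comp emb_inj) k
  · intro v a b ha hb hra hrb hab
    have hab' : emb a ≠ emb b := fun h => hab (emb_inj h)
    rcases v with v | i
    · -- all are among the first vertices
      have hv := rk_inl (k := k) v
      have hinl : ∀ c : Option (Fin k) ⊕ Fin (m + 1), rk (emb c) < rk (Sum.inl v : Lab k) →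
          ∃ d, emb c = (Sum.inl d : Lab k) := by
        intro c hc
        rcases c with c | c
        · exact ⟨c, rfl⟩
        · have e1 : rk (emb (Sum.inr c : Option (Fin k) ⊕ Fin (m + 1))) = k + 1 + c.val := rfl
          omega
      obtain ⟨d, hd⟩ := hinl a hra
      obtain ⟨e, he⟩ := hinl b hrb
      show (GInf s).Adj (emb a) (emb b)
      rw [hd, he] at hab' ⊢
      exact ⟨hab', Or.inl trivial⟩
    · obtain ⟨j, hj⟩ := low_of_adj (s := s) (i := i.val) ha hra
      obtain ⟨j', hj'⟩ := low_of_adj (s := s) (i := i.val) hb hrb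
      show (GInf s).Adj (emb a) (emb b)
      rw [← hj, ← hj']
      apply sg_clique
      rintro rfl
      exact hab' (hj.symm.trans hj')
  · intro v
    rcases v with v | i
    · have h1 : {a | (GFin s m).Adj a (Sum.inl v) ∧ rk (emb a) < rk (emb (Sum.inl v :
          Option (Fin k) ⊕ Fin (m + 1)))}.ncard ≤ (Set.Iio k).ncard := by
        apply Set.ncard_le_ncard_of_injOn (fun a => rk (emb a))
        · rintro a ⟨_, h2⟩
          have h3 := rk_inl (k := k) v
          have h4 : rk (emb (Sum.inl v : Option (Fin k) ⊕ Fin (m + 1))) ≤ k := h3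
          show rk (emb a) < k
          omega
        · intro a _ b _ hab
          exact emb_inj (rk_inj hab)
      refine h1.trans (le_of_eq ?_)
      rw [← Finset.coe_Iio, Set.ncard_coe_finset, Nat.card_Iio]
    · have h1 : {a | (GFin s m).Adj a (Sum.inr i) ∧ rk (emb a) < rk (emb (Sum.inr i :
          Option (Fin k) ⊕ Fin (m + 1)))}.ncard ≤ (Set.range (sg s i.val)).ncard := by
        apply Set.ncard_le_ncard_of_injOn emb
        · rintro a ⟨h2, h3⟩
          exact low_of_adj h2 h3
        · exact fun a _ b _ hab => emb_inj hab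
      refine h1.trans ?_
      rw [← Set.image_univ]
      refine (Set.ncard_image_le (Set.toFinite _)).trans ?_
      rw [Set.ncard_univ]
      simp

/-- the image of the graph of `s` is a path of cliques. -/
theorem kpath_of_embedding {W : Type} {U : SimpleGraph W} (s : ℕ → Fin k) (m : ℕ)
    (f : Option (Fin k) ⊕ Fin (m + 1) → W) (hf : Function.Injective f)
    (hadj : ∀ a b, (GFin s m).Adj a b → U.Adj (f a) (f b)) :
    ∃ (Y : W) (Z : Fin k → W) (X : ℕ → W), KPath U m s Y Z X := by
  classical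
  -- extend `f` to the labels
  let F : Lab k → W := fun u => match u with
    | Sum.inl a => f (Sum.inl a)
    | Sum.inr i => if h : i < m + 1 then f (Sum.inr ⟨i, h⟩) else f (Sum.inl none)
  have hF : ∀ v, F (emb v) = f v := by
    rintro (a | i)
    · rfl
    · show (if h : i.val < m + 1 then f (Sum.inr ⟨i.val, h⟩) else f (Sum.inl none)) = _
      rw [dif_pos i.2]
  have hFx : ∀ i (h : i < m + 1), F (Sum.inr i) = f (Sum.inr ⟨i, h⟩) := by
    intro i h
    show (if h : i < m + 1 then f (Sum.inr ⟨i, h⟩) else f (Sum.inl none)) = _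
    rw [dif_pos h]
  have hst : ∀ i j, st s (fun j => F (Sum.inl (some j))) (fun i => F (Sum.inr i)) i j =
      F (sg s i j) := by
    intro i
    induction i with
    | zero => intro j; rfl
    | succ i ih =>
      intro j
      by_cases hj : j = s i
      · rw [st, sg, st, hj, Function.update_self, Function.update_self]
      · rw [st, sg, st, Function.update_of_ne hj, Function.update_of_ne hj]
        exact ih j
  -- labels of the states are in the image of `emb`
  have hpre : ∀ i ≤ m, ∀ j, ∃ v, emb (m := m) v = sg s i j := by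
    intro i hi j
    rcases st_mem s (fun j => (Sum.inl (some j) : Lab k)) (fun i => (Sum.inr i : Lab k)) i j with
      ⟨j', h⟩ | ⟨l, hl, h⟩
    · exact ⟨Sum.inl (some j'), by rw [sg, h]; rfl⟩
    · exact ⟨Sum.inr ⟨l, by omega⟩, by rw [sg, h]; rfl⟩
  refine ⟨F (Sum.inl none), fun j => F (Sum.inl (some j)), fun i => F (Sum.inr i),
    ?_, ?_, ?_, ?_, ?_, ?_⟩
  · intro i hi j
    rw [hst]
    obtain ⟨v, hv⟩ := hpre i hi j
    rw [← hv, hF]
    have h1 : emb (k := k) (Sum.inr (⟨i, by omega⟩ : Fin (m + 1))) = Sum.inr i := rfl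
    rw [← h1, hF]
    apply hadj
    show (GInf s).Adj (emb _) (emb v)
    rw [h1, hv]
    refine ⟨?_, Or.inr ⟨j, rfl⟩⟩
    intro h
    have h2 := rk_sg s i j
    rw [← h] at h2
    simp [rk] at h2
  · intro j
    apply hadj
    exact ⟨by simp [emb], Or.inl trivial⟩
  · intro j j' hjj
    apply hadj
    exact ⟨by simpa [emb] using hjj, Or.inl trivial⟩
  · intro i i' hi hi' h
    rw [hFx i (by omega), hFx i' (by omega)] at h
    have := Sum.inr.inj (hf h)
    exact congrArg Fin.val this
  · intro i hi h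
    rw [hFx i (by omega)] at h
    exact absurd (hf h) (by simp)
  · intro i hi j h
    rw [hFx i (by omega)] at h
    exact absurd (hf h) (by simp)

end graph

/-- the quantitative lower bound. -/
theorem lower (k m : ℕ) (hk : 1 ≤ k) {W : Type} [Fintype W] (U : SimpleGraph W)
    (hU : ¬ HasK (k + 2) U) (huniv : Universal (k + 2) (m + k + 2) U) :
    k ^ m ≤ Fintype.card W ^ 2 * k ^ k := by
  apply count hk hU
  intro s
  obtain ⟨f, hf1, hf2⟩ := huniv (Option (Fin k) ⊕ Fin (m + 1)) inferInstance (GFin s m) (by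
    rw [Fintype.card_sum, Fintype.card_option, Fintype.card_fin, Fintype.card_fin]
    omega) (GFin_free s m)
  exact kpath_of_embedding s m f hf1 hf2

/-- Every `K_(k+2)`-minor-free graph that contains all `K_(k+2)`-minor-free graphs
with `m + k + 2` vertices as subgraphs has `N` vertices, where `k ^ m ≤ N ^ 2 * k ^ k`. Hence for every
`c > 0` there are `t` and `n ≥ 1` such that every `K_t`-minor-free graph containing all `K_t`-minor-free
graphs with `n` vertices as subgraphs has more than `2 ^ (c n)` vertices. -/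
theorem result :
    (∀ (k m : ℕ), 1 ≤ k → ∀ (W : Type) (_ : Fintype W) (U : SimpleGraph W), ¬ HasK (k + 2) U →
      Universal (k + 2) (m + k + 2) U → k ^ m ≤ Fintype.card W ^ 2 * k ^ k) ∧
    ∀ c : ℝ, 0 < c → ∃ t n : ℕ, 1 ≤ n ∧ ∀ (W : Type) (_ : Fintype W) (U : SimpleGraph W),
      ¬ HasK t U → Universal t n U → (2 : ℝ) ^ (c * n) < Fintype.card W := by
  have hlow : ∀ (k m : ℕ), 1 ≤ k → ∀ (W : Type) (_ : Fintype W) (U : SimpleGraph W),
      ¬ HasK (k + 2) U → Universal (k + 2) (m + k + 2) U → k ^ m ≤ Fintype.card W ^ 2 * k ^ k :=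
    fun k m hk W _ U hU h => lower k m hk U hU h
  refine ⟨hlow, ?_⟩
  intro c hc
  -- the number `k`
  obtain ⟨k, hk⟩ := exists_nat_gt ((2 : ℝ) ^ (2 * c + 1))
  have hk1 : 1 ≤ k := by
    have h1 : (1 : ℝ) ≤ (2 : ℝ) ^ (2 * c + 1) := Real.one_le_rpow (by norm_num) (by linarith)
    have h2 : (1 : ℝ) < k := lt_of_le_of_lt h1 hk
    exact_mod_cast h2.le
  have hk0 : (0 : ℝ) < k := by exact_mod_cast hk1
  -- the number `m`
  obtain ⟨m, hm⟩ := pow_unbounded_of_one_lt ((2 : ℝ) ^ (2 * c * (k + 2)) * (k : ℝ) ^ k)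
    (y := (2 : ℝ)) (by norm_num)
  refine ⟨k + 2, m + k + 2, by omega, ?_⟩
  intro W _ U hU huniv
  have h1 := hlow k m hk1 W inferInstance U hU huniv
  have h2 : (k : ℝ) ^ m ≤ (Fintype.card W : ℝ) ^ 2 * (k : ℝ) ^ k := by exact_mod_cast h1
  have h3 : ((2 : ℝ) ^ (2 * c + 1)) ^ m ≤ (k : ℝ) ^ m :=
    pow_le_pow_left₀ (by positivity) hk.le m
  have h4 : ((2 : ℝ) ^ (2 * c + 1)) ^ m = (2 : ℝ) ^ (2 * c * m) * (2 : ℝ) ^ m := by
    rw [← Real.rpow_natCast ((2 : ℝ) ^ (2 * c + 1)), ← Real.rpow_mul (by norm_num),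
      ← Real.rpow_natCast (2 : ℝ) m, ← Real.rpow_add (by norm_num)]
    congr 1
    ring
  have h5 : ((2 : ℝ) ^ (c * ((m + k + 2 : ℕ) : ℝ))) ^ 2 * (k : ℝ) ^ k < (k : ℝ) ^ m := by
    have h6 : ((2 : ℝ) ^ (c * ((m + k + 2 : ℕ) : ℝ))) ^ 2 =
        (2 : ℝ) ^ (2 * c * m) * (2 : ℝ) ^ (2 * c * (k + 2)) := by
      rw [← Real.rpow_natCast ((2 : ℝ) ^ (c * ((m + k + 2 : ℕ) : ℝ))), ← Real.rpow_mul (by norm_num),
        ← Real.rpow_add (by norm_num)]
      congr 1
      push_cast
      ring
    rw [h6]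
    calc (2 : ℝ) ^ (2 * c * m) * (2 : ℝ) ^ (2 * c * (k + 2)) * (k : ℝ) ^ k
        = (2 : ℝ) ^ (2 * c * m) * ((2 : ℝ) ^ (2 * c * (k + 2)) * (k : ℝ) ^ k) := by ring
      _ < (2 : ℝ) ^ (2 * c * m) * (2 : ℝ) ^ m := mul_lt_mul_of_pos_left hm (by positivity)
      _ = ((2 : ℝ) ^ (2 * c + 1)) ^ m := h4.symm
      _ ≤ (k : ℝ) ^ m := h3
  have h6 : ((2 : ℝ) ^ (c * ((m + k + 2 : ℕ) : ℝ))) ^ 2 < (Fintype.card W : ℝ) ^ 2 := by
    have h7 : ((2 : ℝ) ^ (c * ((m + k + 2 : ℕ) : ℝ))) ^ 2 * (k : ℝ) ^ k <
        (Fintype.card W : ℝ) ^ 2 * (k : ℝ) ^ k := lt_of_lt_of_le h5 h2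
    exact lt_of_mul_lt_mul_right h7 (by positivity)
  exact lt_of_pow_lt_pow_left₀ 2 (Nat.cast_nonneg _) h6

end Pool.Agent.Results.MP_f53640_co.NoUniformExponent
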